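import Pool.Agent.H93.DE.Targets

/-!
# Row CRD: the entropy of the words of a cell field
-/

set_option autoImplicit false

open Finset Pool.Agent.H18.MR Pool.Agent.H93.DE

namespace Pool.Agent.H94.DE

/-- the letters of the cells and the place in the first cell -/
def Zc {A : ℕ} (N' S κ : ℕ) [NeZero S] (c : ℕ → Fin A) (v : ℕ) : Fin S × (Fin κ → Fin A) :=
  (Fin.ofNat S v, fun i => c ((v / S + (i : ℕ)) % N'))

/-- the word -/
def gc {A : ℕ} (S κ L : ℕ) [NeZero S] [NeZero κ] (z : Fin S × (Fin κ → Fin A)) :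
    Fin L → Fin A × Fin S :=
  fun t => (z.2 (Fin.ofNat κ (((z.1 : ℕ) + (t : ℕ)) / S)), Fin.ofNat S ((z.1 : ℕ) + (t : ℕ)))

theorem gc_Zc {A : ℕ} (N' S L v : ℕ) [NeZero S] (c : ℕ → Fin A) (t : Fin L) :
    gc S (L / S + 2) L (Zc N' S (L / S + 2) c v) t = fld S c ((v + (t : ℕ)) % (S * N')) := by
  have hS : 0 < S := Nat.pos_of_ne_zero (NeZero.ne S)
  have hv : S * (v / S) + v % S = v := Nat.div_add_mod v S
  have h1 : (v + (t : ℕ)) / S = v / S + (v % S + (t : ℕ)) / S := by
    have h2 : v + (t : ℕ) = S * (v / S) + (v % S + (t : ℕ)) := by omega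
    calc (v + (t : ℕ)) / S = (S * (v / S) + (v % S + (t : ℕ))) / S := by rw [← h2]
      _ = v / S + (v % S + (t : ℕ)) / S := Nat.mul_add_div hS _ _
  have h3 : (v % S + (t : ℕ)) / S < L / S + 2 := by
    have h4 : v % S < S := Nat.mod_lt v hS
    have h5 : (t : ℕ) < L := t.2
    have h6 : (v % S + (t : ℕ)) / S ≤ (S + L) / S := Nat.div_le_div_right (by omega)
    rw [Nat.add_div_left L hS] at h6
    omega
  unfold gc Zc fld
  simp only
  refine Prod.ext ?_ ?_
  · simp only
    rw [Nat.mod_mul_right_div_self, h1]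
    congr 2
    have h7 : ((Fin.ofNat S v : Fin S) : ℕ) = v % S := rfl
    rw [h7]
    have h8 : ((Fin.ofNat (L / S + 2) ((v % S + (t : ℕ)) / S) : Fin (L / S + 2)) : ℕ) =
        (v % S + (t : ℕ)) / S % (L / S + 2) := rfl
    rw [h8, Nat.mod_eq_of_lt h3]
  · simp only
    apply Fin.ext
    have h7 : ((Fin.ofNat S v : Fin S) : ℕ) = v % S := rfl
    change (((Fin.ofNat S v : Fin S) : ℕ) + (t : ℕ)) % S = (v + (t : ℕ)) % (S * N') % S
    rw [h7, Nat.mod_mul_right_mod, Nat.mod_add_mod]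

theorem pf_CRD : T_CRD := by
  intro N S A L _ _ c hSN
  obtain ⟨N', rfl⟩ := hSN
  set κ := L / S + 2 with hκ
  have hword : (fun n : ZMod (S * N') => wd (fun k : ZMod (S * N') => fld S c k.val) L n) =
      fun n : ZMod (S * N') => gc S (L / S + 2) L (Zc N' S (L / S + 2) c n.val) := by
    funext n t
    rw [gc_Zc]
    unfold wd
    have h1 : (n + ((t : ℕ) : ZMod (S * N'))).val = (n.val + (t : ℕ)) % (S * N') := by
      rw [ZMod.val_add, ZMod.val_natCast, Nat.add_mod_mod]
    exact congrArg (fld S c) h1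
  rw [hword]
  have : Nonempty (Fin A) := ⟨c 0⟩
  have h1 := ent_comp_le (unif (S * N')) (fun n : ZMod (S * N') => Zc N' S (L / S + 2) c n.val)
    (gc S (L / S + 2) L)
  have : Nonempty (Fin S) := ⟨Fin.ofNat S 0⟩
  have h2 := ent_le_log_card (unif (S * N'))
    (fun n : ZMod (S * N') => Zc N' S (L / S + 2) c n.val)
  refine h1.trans (h2.trans ?_)
  rw [Fintype.card_prod, Fintype.card_fun, Fintype.card_fin, Fintype.card_fin, Fintype.card_fin]
  have hS : (0 : ℝ) < S := by
    have := Nat.pos_of_ne_zero (NeZero.ne S)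
    exact_mod_cast this
  have hA : 0 < A := Fin.pos (c 0)
  have hA' : (1 : ℝ) ≤ A := by exact_mod_cast hA
  push_cast
  rw [Real.log_mul hS.ne' (by positivity), Real.log_pow]
  have h3 : ((L / S + 2 : ℕ) : ℝ) ≤ (L : ℝ) / S + 2 := by
    push_cast
    have := Nat.cast_div_le (α := ℝ) (m := L) (n := S)
    linarith
  have h4 := mul_le_mul_of_nonneg_right h3 (Real.log_nonneg hA')
  linarith

end Pool.Agent.H94.DE
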