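import Pool.Agent.H93.DE.Targets

/-!
# Row CYC: the decoupling on the cyclic group
-/

set_option autoImplicit false

open Finset Pool.Agent.H18.MR Pool.Agent.H93.DE

namespace Pool.Agent.H94.DE

theorem primorial_dvd_of_le {m n : ℕ} (h : m ≤ n) : primorial m ∣ primorial n := by
  unfold primorial
  apply Finset.prod_dvd_prod_of_subset
  intro p hp
  rw [mem_filter, mem_range] at hp ⊢
  exact ⟨by omega, hp.2⟩

theorem geom_tail (a b : ℕ) (hab : a ≤ b) : ∑ m ∈ Ico a b, (1 : ℝ) / 2 ^ m ≤ 2 / 2 ^ a := by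
  have h : ∀ b, a ≤ b → ∑ m ∈ Ico a b, (1 : ℝ) / 2 ^ m = 2 / 2 ^ a - 2 / 2 ^ b := by
    intro b hb
    induction b, hb using Nat.le_induction with
    | base => simp
    | succ b hb ih =>
      rw [sum_Ico_succ_top hb, ih, pow_succ]
      field_simp
      ring
  rw [h b hab]
  have : (0 : ℝ) < 2 / 2 ^ b := by positivity
  linarith

theorem ev_large (κ : ℝ) (hκ : 0 < κ) (D : ℕ) : ∃ m₀ : ℕ, ∀ m : ℕ, m₀ ≤ m →
    Real.log 2 * (D * m + 1) * m ≤ κ * 2 ^ m := by
  have h1 : Filter.Tendsto (fun m : ℕ => (m : ℝ) ^ 2 / 2 ^ m) Filter.atTop (nhds 0) :=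
    tendsto_pow_const_div_const_pow_of_one_lt 2 (by norm_num)
  have h2 : 0 < κ / (D + 1) := by positivity
  obtain ⟨m₀, hm₀⟩ := Filter.eventually_atTop.1 (h1.eventually (gt_mem_nhds h2))
  refine ⟨m₀ + 1, fun m hm => ?_⟩
  have h3 := hm₀ m (by omega)
  have h4 : (1 : ℝ) ≤ m := by exact_mod_cast (by omega : 1 ≤ m)
  have h2m : (0 : ℝ) < 2 ^ m := by positivity
  rw [div_lt_div_iff₀ h2m (by positivity)] at h3
  have hlog : Real.log 2 ≤ 1 := by
    have := Real.log_two_lt_d9
    linarith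
  have hlog0 : 0 ≤ Real.log 2 := Real.log_nonneg (by norm_num)
  calc Real.log 2 * (D * m + 1) * m ≤ 1 * ((D * m + m) * m) := by
        rw [mul_assoc]
        refine mul_le_mul hlog ?_ (by positivity) (by norm_num)
        refine mul_le_mul_of_nonneg_right ?_ (by positivity)
        linarith
    _ = (m : ℝ) ^ 2 * (D + 1) := by ring
    _ ≤ κ * 2 ^ m := h3.le

theorem pf_CYC (hPIL : T_PIL) (hSUM : T_SUM) (hBAD : T_BAD) (hCRD : T_CRD) : T_CYC := by
  intro ε K D hε hK
  obtain ⟨c₀, m₁, hc₀, hpil⟩ := hPIL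
  set κ : ℝ := ε ^ 2 * c₀ / 64 with hκdef
  have hκ : 0 < κ := by rw [hκdef]; positivity
  obtain ⟨m₂, hm₂⟩ := ev_large κ hκ D
  have hKpos : (0 : ℝ) < K := by exact_mod_cast hK
  refine ⟨(2 * K + 2) / κ, max m₁ m₂ + 1, by positivity, ?_⟩
  intro N S A a b _ _ c G ha hab hprim hSN hG
  have hA : 0 < A := Fin.pos (c 0)
  have hA' : (1 : ℝ) ≤ A := by exact_mod_cast hA
  have hS0 : 0 < S := Nat.pos_of_ne_zero (NeZero.ne S)
  have hS' : (1 : ℝ) ≤ S := by exact_mod_cast hS0
  have hSpos : (0 : ℝ) < S := by linarith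
  have hlogA := Real.log_nonneg hA'
  have hlogS := Real.log_nonneg hS'
  have hlog2 : Real.log 2 ≤ 1 := by
    have := Real.log_two_lt_d9
    linarith
  set x : ZMod N → Fin A × Fin S := fun k => fld S c k.val with hx
  -- one octave
  have hone : ∀ m ∈ Ico a b, (unif N).P {n | BadZ x ε K D m (G m) n} / m ≤
      (1 / κ) * ((2 * K) * (info x (2 * K * 2 ^ m) (primorial (2 ^ m)) (pr m) /
        ((2 * K : ℕ) * 2 ^ m)) + 1 / 2 ^ m) := by
    intro m hm
    rw [mem_Ico] at hm
    have hm1 : 1 ≤ m := by omega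
    have hmpos : (0 : ℝ) < m := by exact_mod_cast hm1
    have h2m : (0 : ℝ) < 2 ^ m := by positivity
    have hp := hpil m (by omega)
    have hl := hm₂ m (by omega)
    have h1 : κ * 2 ^ m / m ≤ ε ^ 2 * (oct m).card / 32 - Real.log 2 * (D * m + 1) := by
      have h2 : Real.log 2 * (D * m + 1) ≤ κ * 2 ^ m / m := by
        rw [le_div_iff₀ hmpos]
        exact hl
      have h3 : 2 * (κ * 2 ^ m / m) ≤ ε ^ 2 * (oct m).card / 32 := by
        calc 2 * (κ * 2 ^ m / m) = ε ^ 2 * (c₀ * 2 ^ m / m) / 32 := by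
              rw [hκdef]
              ring
          _ ≤ ε ^ 2 * (oct m).card / 32 := by gcongr
      linarith
    have hpos : 0 < κ * 2 ^ m / m := by positivity
    have hdvd : primorial (2 ^ (m + 1)) ∣ N :=
      (primorial_dvd_of_le (Nat.pow_le_pow_right (by norm_num) hm.2)).trans hprim
    have h4 := hBAD (Fin A × Fin S) N K D m x ε (G m) hε hK (hG m) hdvd (hpos.trans_le h1)
    have h5 : (unif N).P {n | BadZ x ε K D m (G m) n} * (κ * 2 ^ m / m) ≤
        info x (2 * K * 2 ^ m) (primorial (2 ^ m)) (pr m) + 1 := by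
      have h6 := mul_le_mul_of_nonneg_left h1
        ((unif N).nonneg {n | BadZ x ε K D m (G m) n})
      linarith
    have h7 : (unif N).P {n | BadZ x ε K D m (G m) n} / m * (κ * 2 ^ m) ≤
        info x (2 * K * 2 ^ m) (primorial (2 ^ m)) (pr m) + 1 := by
      refine le_trans (le_of_eq ?_) h5
      ring
    have h8 : (unif N).P {n | BadZ x ε K D m (G m) n} / m ≤
        (info x (2 * K * 2 ^ m) (primorial (2 ^ m)) (pr m) + 1) / (κ * 2 ^ m) := by
      rw [le_div_iff₀ (by positivity)]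
      exact h7
    refine h8.trans (le_of_eq ?_)
    push_cast
    field_simp
  have hsum := hSUM (Fin A × Fin S) N a b (2 * K) x (by omega) hab hprim
  have hcrd := hCRD N S A (2 * K * 2 ^ a) c hSN
  rw [← hx] at hcrd
  have h2a : (0 : ℝ) < 2 ^ a := by positivity
  have hQ : (0 : ℝ) < ((2 * K : ℕ) : ℝ) * 2 ^ a := by
    push_cast
    positivity
  have h9 : ent (unif N) (fun n => wd x (2 * K * 2 ^ a) n) / (((2 * K : ℕ) : ℝ) * 2 ^ a) ≤
      Real.log A / S + (Real.log S + 2 * Real.log A) / (2 * K * 2 ^ a) := by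
    rw [div_le_iff₀ hQ]
    refine hcrd.trans (le_of_eq ?_)
    push_cast
    field_simp
    ring
  have hgeom := geom_tail a b hab
  calc ∑ m ∈ Ico a b, (unif N).P {n | BadZ x ε K D m (G m) n} / m
      ≤ ∑ m ∈ Ico a b, (1 / κ) * ((2 * K) * (info x (2 * K * 2 ^ m) (primorial (2 ^ m)) (pr m) /
        ((2 * K : ℕ) * 2 ^ m)) + 1 / 2 ^ m) := sum_le_sum hone
    _ = (1 / κ) * ((2 * K) * ∑ m ∈ Ico a b, info x (2 * K * 2 ^ m) (primorial (2 ^ m)) (pr m) /
        ((2 * K : ℕ) * 2 ^ m) + ∑ m ∈ Ico a b, 1 / 2 ^ m) := by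
        rw [← mul_sum, sum_add_distrib, ← mul_sum]
    _ ≤ (1 / κ) * ((2 * K) * (Real.log A / S + (Real.log S + 2 * Real.log A) / (2 * K * 2 ^ a)) +
        2 / 2 ^ a) := by
        refine mul_le_mul_of_nonneg_left ?_ (by positivity)
        refine add_le_add (mul_le_mul_of_nonneg_left (hsum.trans h9) (by positivity)) hgeom
    _ = (1 / κ) * (2 * K * (Real.log A / S) + (Real.log S + 2 * Real.log A + 2) / 2 ^ a) := by
        field_simp
        ring
    _ ≤ (1 / κ) * ((2 * K + 2) * (Real.log A / S) +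
        (2 * K + 2) * ((Real.log S + 2 * Real.log A + 1) / 2 ^ a)) := by
        refine mul_le_mul_of_nonneg_left (add_le_add ?_ ?_) (by positivity)
        · refine mul_le_mul_of_nonneg_right (by linarith) (by positivity)
        · rw [← mul_div_assoc]
          refine div_le_div_of_nonneg_right ?_ h2a.le
          have h10 : 0 ≤ (2 * (K : ℝ)) * (Real.log S + 2 * Real.log A + 1) := by positivity
          have h11 : 0 ≤ Real.log S + 2 * Real.log A := by positivity
          nlinarith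
    _ = (2 * K + 2) / κ * (Real.log A / S + (Real.log S + 2 * Real.log A + 1) / 2 ^ a) := by
        ring

end Pool.Agent.H94.DE
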