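import Pool.Agent.H93.DE.Targets

/-!
# Row EVT: an event which is rare under independence
-/

set_option autoImplicit false

open Finset Pool.Agent.H18.MR Pool.Agent.H93.DE

namespace Pool.Agent.H94.DE

theorem pf_EVT : T_EVT := by
  intro Ω α β _ _ _ _ μ X Y E _ q hq0 hq1 hE
  set T : Ω → α × β := fun ω => (X ω, Y ω) with hT
  set p : α × β → ℝ := law μ T with hp
  set px : α → ℝ := law μ X with hpx
  set py : β → ℝ := law μ Y with hpy
  set τ : ℝ := Real.log (1 / q) with hτ
  have hexpτ : Real.exp τ = 1 / q := Real.exp_log (by positivity)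
  have e1 : ∀ t, p t ≤ px t.1 := fun t => law_le_comp μ T Prod.fst t
  have e2 : ∀ t, p t ≤ py t.2 := fun t => law_le_comp μ T Prod.snd t
  have p0 : ∀ t, 0 ≤ p t := law_nonneg μ T
  set f : α × β → ℝ := fun t => if E t.1 t.2 then 1 else 0 with hf
  have g := gibbs Finset.univ p (fun t => px t.1 * py t.2 * Real.exp (τ * f t) / 2) p0
    (fun t => div_nonneg (mul_nonneg (mul_nonneg (law_nonneg μ _ _) (law_nonneg μ _ _))
      (Real.exp_pos _).le) (by norm_num))
    (fun t ht => by
      by_contra hne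
      have hpos : 0 < p t := lt_of_le_of_ne (p0 t) (Ne.symm hne)
      have h1 : 0 < px t.1 := hpos.trans_le (e1 t)
      have h2 : 0 < py t.2 := hpos.trans_le (e2 t)
      have : 0 < px t.1 * py t.2 * Real.exp (τ * f t) / 2 := by positivity
      linarith)
  have hps : ∑ t, p t = 1 := law_sum μ T
  have hlog : ∀ t, p t * Real.log (px t.1 * py t.2 * Real.exp (τ * f t) / 2) =
      p t * Real.log (px t.1) + p t * Real.log (py t.2) + τ * (p t * f t) -
        p t * Real.log 2 := by
    intro t
    rcases eq_or_lt_of_le (p0 t) with h0 | h0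
    · rw [← h0]; ring
    · have h1 : 0 < px t.1 := h0.trans_le (e1 t)
      have h2 : 0 < py t.2 := h0.trans_le (e2 t)
      rw [Real.log_div (mul_pos (mul_pos h1 h2) (Real.exp_pos _)).ne' (by norm_num),
        Real.log_mul (mul_pos h1 h2).ne' (Real.exp_pos _).ne', Real.log_mul h1.ne' h2.ne',
        Real.log_exp]
      ring
  have hexp : ∀ t, px t.1 * py t.2 * Real.exp (τ * f t) / 2 =
      (px t.1 * py t.2 + (1 / q - 1) * (px t.1 * (py t.2 * f t))) / 2 := by
    intro t
    simp only [hf]
    split_ifs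
    · rw [mul_one, hexpτ]
      ring
    · rw [mul_zero, Real.exp_zero]
      ring
  have htot : ∑ t : α × β, px t.1 * py t.2 = 1 := by
    rw [Fintype.sum_prod_type]
    simp only
    rw [← Finset.sum_mul_sum, law_sum, law_sum, one_mul]
  have hfq : ∑ t : α × β, px t.1 * (py t.2 * f t) ≤ q := by
    rw [Fintype.sum_prod_type]
    calc ∑ a, ∑ b, px a * (py b * f (a, b)) = ∑ a, px a * ∑ b, py b * f (a, b) := by
          refine sum_congr rfl fun a _ => ?_
          rw [mul_sum]
      _ ≤ ∑ a, px a * q := sum_le_sum fun a _ =>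
          mul_le_mul_of_nonneg_left (hE a) (law_nonneg μ X a)
      _ = q := by rw [← sum_mul, law_sum, one_mul]
  have hmass : ∑ t : α × β, px t.1 * py t.2 * Real.exp (τ * f t) / 2 ≤ 1 := by
    rw [sum_congr rfl fun t _ => hexp t, ← sum_div, sum_add_distrib, ← mul_sum, htot]
    have h1 : (1 / q - 1) * ∑ t : α × β, px t.1 * (py t.2 * f t) ≤ (1 / q - 1) * q := by
      refine mul_le_mul_of_nonneg_left hfq ?_
      rw [sub_nonneg, le_div_iff₀ hq0]
      linarith
    have h2 : (1 / q - 1) * q = 1 - q := by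
      field_simp
    rw [h2] at h1
    linarith
  rw [sum_congr rfl (fun t _ => hlog t), sum_sub_distrib, sum_add_distrib, sum_add_distrib,
    ← sum_mul, ← mul_sum, hps, one_mul] at g
  have s1 := sum_law_comp μ T Prod.fst (fun u => Real.log (px u))
  have s2 := sum_law_comp μ T Prod.snd (fun u => Real.log (py u))
  rw [← hp] at s1 s2
  rw [s1, s2] at g
  have t2 : μ.P {ω | E (X ω) (Y ω)} = ∑ t : α × β, p t * f t := by
    classical
    have h1 := P_pre μ T {t | E t.1 t.2}
    have h2 : T ⁻¹' {t | E t.1 t.2} = {ω | E (X ω) (Y ω)} := rfl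
    rw [h2] at h1
    rw [h1, sum_filter]
    refine sum_congr rfl fun t _ => ?_
    simp only [hf, Set.mem_ofPred_eq]
    split_ifs
    · rw [mul_one]
    · rw [mul_zero]
  rw [t2]
  have u1 : ent μ T = -∑ t, p t * Real.log (p t) := rfl
  have u2 : ent μ X = -∑ t, px t * Real.log (px t) := rfl
  have u3 : ent μ Y = -∑ t, py t * Real.log (py t) := rfl
  have u4 : mi μ X Y = ent μ X + ent μ Y - ent μ T := rfl
  have u5 : ∑ b, law μ (fun ω => (T ω).1) b * Real.log (px b) =
      ∑ t, px t * Real.log (px t) := rfl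
  have u6 : ∑ b, law μ (fun ω => (T ω).2) b * Real.log (py b) =
      ∑ t, py t * Real.log (py t) := rfl
  rw [u4, u1, u2, u3]
  linarith

end Pool.Agent.H94.DE
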